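import Pool.Agent.H560.AR.Stm
import Pool.Agent.H523.RH2
import Pool.Agent.H113.SI.SM

/-!
# Squarefree polynomials coprime to `M` (task PHI of project AR, helper560)
-/

set_option autoImplicit false

open Finset Polynomial
open scoped Classical
open Pool.Agent.H694.Typ (Mn mem_Mn wt wt_add wt_nonneg q_ge)
open Pool.Agent.H113.SI (Qn mem_Qn sqf_lower)
open Pool.Agent.H523.RH (Phi Phi_prod)

namespace Pool.Agent.H706.AR

variable {K : Type} [Field K] [Fintype K]

omit [Fintype K] in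
/-- A squarefree monic polynomial is the product of its irreducible factors. -/
lemma facs {h : K[X]} (hm : h.Monic) (hs : Squarefree h) : ∃ I : Finset K[X],
    (∀ P, P ∈ I ↔ P.Monic ∧ Irreducible P ∧ P ∣ h) ∧ ∏ P ∈ I, P = h := by
  refine ⟨(UniqueFactorizationMonoid.normalizedFactors h).toFinset, ?_, ?_⟩
  · intro P
    rw [Multiset.mem_toFinset, Polynomial.mem_normalizedFactors_iff hm.ne_zero]
    tauto
  · have hn : (UniqueFactorizationMonoid.normalizedFactors h).Nodup :=
      (UniqueFactorizationMonoid.squarefree_iff_nodup_normalizedFactors hm.ne_zero).1 hs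
    have h1 := UniqueFactorizationMonoid.prod_normalizedFactors_eq hm.ne_zero
    rw [hm.normalize_eq_self] at h1
    show (Multiset.map (fun P => P) _).prod = _
    rw [Multiset.map_id', Multiset.toFinset_val, hn.dedup, h1]

omit [Fintype K] in
/-- Every squarefree monic `f` is `u w`, `u` the product of the elements of `T ⊆ S`, `w` coprime to `M`. -/
lemma split_f {M f : K[X]} {S : Finset K[X]} (hS : ∀ P, P ∈ S ↔ P.Monic ∧ Irreducible P ∧ P ∣ M)
    (hM : ∏ P ∈ S, P = M) (hf : f.Monic) (hs : Squarefree f) :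
    ∃ w : K[X], f = (∏ P ∈ S.filter (fun P => P ∣ f), P) * w ∧ w.Monic ∧ Squarefree w ∧ IsCoprime w M := by
  obtain ⟨I, hI, hIf⟩ := facs hf hs
  have hT : S.filter (fun P => P ∣ f) = I.filter (fun P => P ∣ M) := by
    ext P
    rw [mem_filter, mem_filter, hS, hI]
    tauto
  have h1 : (∏ P ∈ I.filter (fun P => P ∣ M), P) * (∏ P ∈ I.filter (fun P => ¬ P ∣ M), P) = f := by
    rw [← hIf]
    exact Finset.prod_filter_mul_prod_filter_not I _ _
  refine ⟨∏ P ∈ I.filter (fun P => ¬ P ∣ M), P, ?_, ?_, ?_, ?_⟩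
  · rw [hT, h1]
  · exact monic_prod_of_monic _ _ fun P hP => ((hI P).1 (mem_filter.1 hP).1).1
  · exact hs.squarefree_of_dvd ⟨_, by rw [mul_comm]; exact h1.symm⟩
  · have h5 : IsCoprime (∏ P ∈ I.filter (fun P => ¬ P ∣ M), P) (∏ P ∈ S, P) := by
      refine IsCoprime.prod_left fun P hP => IsCoprime.prod_right fun R hR => ?_
      obtain ⟨hP1, hP2⟩ := mem_filter.1 hP
      have hP3 := (hI P).1 hP1
      have hR3 := (hS R).1 hR
      rw [hP3.2.1.coprime_iff_not_dvd]
      intro hd
      have hass : Associated P R := hP3.2.1.associated_of_dvd hR3.2.1 hd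
      have heq : P = R := eq_of_monic_of_associated hP3.1 hR3.1 hass
      exact hP2 (heq ▸ hR3.2.2)
    rwa [hM] at h5

theorem phi : Pool.Agent.H560.AR.S_phi := by
  intro K _ _
  refine ⟨1 / 4, by norm_num, ?_⟩
  intro M D hM hMs
  obtain ⟨S, hS, hSM⟩ := facs hM hMs
  have hq := q_ge (k := K)
  have hq0 : (0 : ℝ) < (Fintype.card K : ℝ) := by linarith
  set R : ℝ := ∑ d ∈ Finset.range (D + 1),
        (((Mn K d).filter (fun w => Squarefree w ∧ IsCoprime w M)).card : ℝ) / (Fintype.card K : ℝ) ^ d with hR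
  have hR0 : 0 ≤ R := Finset.sum_nonneg fun d _ => by positivity
  -- the sets
  set QQ : Finset K[X] := (Finset.range (D + 1)).biUnion (Qn K) with hQQ
  set WW : Finset K[X] := (Finset.range (D + 1)).biUnion
    (fun d => (Mn K d).filter (fun w => Squarefree w ∧ IsCoprime w M)) with hWW
  have e1 : ∑ f ∈ QQ, wt K f.natDegree = ∑ d ∈ Finset.range (D + 1), ((Qn K d).card : ℝ) * wt K d := by
    rw [hQQ, Finset.sum_biUnion]
    · refine Finset.sum_congr rfl fun d _ => ?_
      rw [Finset.sum_congr rfl (fun f hf => by rw [(mem_Qn.1 hf).2.1]), Finset.sum_const, nsmul_eq_mul]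
    · intro a _ b _ hab
      rw [Function.onFun, Finset.disjoint_left]
      intro f hfa hfb
      exact hab ((mem_Qn.1 hfa).2.1.symm.trans (mem_Qn.1 hfb).2.1)
  have e2 : ∑ f ∈ WW, wt K f.natDegree = R := by
    rw [hWW, Finset.sum_biUnion]
    · refine Finset.sum_congr rfl fun d _ => ?_
      rw [Finset.sum_congr rfl (fun f hf => by rw [(mem_Mn.1 (mem_filter.1 hf).1).2]), Finset.sum_const,
        nsmul_eq_mul, div_eq_mul_inv]
      rfl
    · intro a _ b _ hab
      rw [Function.onFun, Finset.disjoint_left]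
      intro f hfa hfb
      exact hab ((mem_Mn.1 (mem_filter.1 hfa).1).2.symm.trans (mem_Mn.1 (mem_filter.1 hfb).1).2)
  have e3 : ((D : ℝ) + 1) / 4 ≤ ∑ f ∈ QQ, wt K f.natDegree := by
    rw [e1]
    have h1 : ∀ d ∈ Finset.range (D + 1), (1 / 4 : ℝ) ≤ ((Qn K d).card : ℝ) * wt K d := by
      intro d _
      have h2 := sqf_lower (K := K) d
      have hpos : (0 : ℝ) < (Fintype.card K : ℝ) ^ d := by positivity
      unfold wt
      rw [← div_eq_mul_inv, le_div_iff₀ hpos]
      linarith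
    have h3 := Finset.sum_le_sum h1
    rw [Finset.sum_const, Finset.card_range, nsmul_eq_mul] at h3
    push_cast at h3
    linarith
  -- the upper bound
  choose! w hw using fun (f : K[X]) (hf : f.Monic ∧ Squarefree f) => split_f hS hSM hf.1 hf.2
  have hQm : ∀ f ∈ QQ, f.Monic ∧ Squarefree f ∧ f.natDegree ≤ D := by
    intro f hf
    rw [hQQ, Finset.mem_biUnion] at hf
    obtain ⟨d, hd, hf⟩ := hf
    have := mem_Qn.1 hf
    rw [Finset.mem_range] at hd
    exact ⟨this.1, this.2.2, by omega⟩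
  have hTm : ∀ T ⊆ S, (∏ P ∈ T, P).Monic := fun T hT =>
    monic_prod_of_monic _ _ fun P hP => ((hS P).1 (hT hP)).1
  have hdeg : ∀ f ∈ QQ, f.natDegree =
      (∏ P ∈ S.filter (fun P => P ∣ f), P).natDegree + (w f).natDegree := by
    intro f hf
    obtain ⟨h1, h2, h3⟩ := hQm f hf
    obtain ⟨h4, h5, h6, h7⟩ := hw f ⟨h1, h2⟩
    conv_lhs => rw [h4]
    exact (hTm _ (filter_subset _ _)).natDegree_mul h5
  have e4 : ∑ f ∈ QQ, wt K f.natDegree ≤
      ∑ x ∈ S.powerset ×ˢ WW, wt K (∏ P ∈ x.1, P).natDegree * wt K x.2.natDegree := by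
    calc ∑ f ∈ QQ, wt K f.natDegree = ∑ f ∈ QQ,
          (fun x : Finset K[X] × K[X] => wt K (∏ P ∈ x.1, P).natDegree * wt K x.2.natDegree)
            (S.filter (fun P => P ∣ f), w f) := by
          refine Finset.sum_congr rfl fun f hf => ?_
          rw [hdeg f hf, wt_add]
      _ = ∑ x ∈ QQ.image (fun f => (S.filter (fun P => P ∣ f), w f)),
            wt K (∏ P ∈ x.1, P).natDegree * wt K x.2.natDegree := by
          rw [Finset.sum_image]
          intro f hf g hg hfg
          rw [Prod.mk.injEq] at hfg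
          obtain ⟨h1, h2, h3⟩ := hQm f hf
          obtain ⟨h4, h5, h6, h7⟩ := hw f ⟨h1, h2⟩
          obtain ⟨g1, g2, g3⟩ := hQm g hg
          obtain ⟨g4, g5, g6, g7⟩ := hw g ⟨g1, g2⟩
          rw [h4, g4, hfg.1, hfg.2]
      _ ≤ _ := by
          refine Finset.sum_le_sum_of_subset_of_nonneg ?_ fun x _ _ =>
            mul_nonneg (wt_nonneg _) (wt_nonneg _)
          intro x hx
          rw [Finset.mem_image] at hx
          obtain ⟨f, hf, rfl⟩ := hx
          obtain ⟨h1, h2, h3⟩ := hQm f hf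
          obtain ⟨h4, h5, h6, h7⟩ := hw f ⟨h1, h2⟩
          rw [Finset.mem_product]
          refine ⟨Finset.mem_powerset.2 (filter_subset _ _), ?_⟩
          show w f ∈ WW
          rw [hWW, Finset.mem_biUnion]
          have h8 := hdeg f hf
          exact ⟨(w f).natDegree, Finset.mem_range.2 (by omega), mem_filter.2 ⟨mem_Mn.2 ⟨h5, rfl⟩, h6, h7⟩⟩
  have e5 : ∑ x ∈ S.powerset ×ˢ WW, wt K (∏ P ∈ x.1, P).natDegree * wt K x.2.natDegree =
      (∏ P ∈ S, (1 + wt K P.natDegree)) * R := by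
    rw [← e2, Finset.prod_one_add, Finset.sum_product, Finset.sum_mul_sum]
    refine Finset.sum_congr rfl fun T hT => Finset.sum_congr rfl fun v _ => ?_
    have hT' := Finset.mem_powerset.1 hT
    congr 1
    show wt K (∏ P ∈ T, P).natDegree = _
    rw [natDegree_prod_of_monic _ _ (fun P hP => ((hS P).1 (hT' hP)).1)]
    unfold wt
    rw [Finset.prod_inv_distrib, Finset.prod_pow_eq_pow_sum]
  -- the Euler function
  have e6 : (Phi M 0 : ℝ) / (Fintype.card K : ℝ) ^ M.natDegree = ∏ P ∈ S, (1 - wt K P.natDegree) := by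
    have h1 := Phi_prod S (fun P hP => ⟨((hS P).1 hP).1, ((hS P).1 hP).2.1⟩) 0
    rw [hSM] at h1
    rw [h1, pow_zero, one_mul]
    conv_lhs => rw [← hSM]
    rw [natDegree_prod_of_monic _ _ (fun P hP => ((hS P).1 hP).1), ← Finset.prod_pow_eq_pow_sum,
      ← Finset.prod_div_distrib]
    refine Finset.prod_congr rfl fun P _ => ?_
    have hpos : (0 : ℝ) < (Fintype.card K : ℝ) ^ P.natDegree := by positivity
    unfold wt
    field_simp
  have hwt1 : ∀ P ∈ S, wt K P.natDegree ≤ 1 := by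
    intro P _
    unfold wt
    exact inv_le_one_of_one_le₀ (one_le_pow₀ (by linarith))
  have hPhi0 : 0 ≤ ∏ P ∈ S, (1 - wt K P.natDegree) :=
    Finset.prod_nonneg fun P hP => by have := hwt1 P hP; linarith
  have e7 : (∏ P ∈ S, (1 - wt K P.natDegree)) * (∏ P ∈ S, (1 + wt K P.natDegree)) ≤ 1 := by
    rw [← Finset.prod_mul_distrib]
    refine Finset.prod_le_one (fun P hP => ?_) (fun P hP => ?_)
    · have h1 := hwt1 P hP
      have h2 := wt_nonneg (k := K) P.natDegree
      exact mul_nonneg (by linarith) (by linarith)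
    · nlinarith [sq_nonneg (wt K P.natDegree)]
  have e8 : ((D : ℝ) + 1) / 4 ≤ (∏ P ∈ S, (1 + wt K P.natDegree)) * R := by
    rw [← e5]
    exact e3.trans e4
  calc 1 / 4 * ((D : ℝ) + 1) * Phi M 0 / (Fintype.card K : ℝ) ^ M.natDegree
      = (((D : ℝ) + 1) / 4) * ((Phi M 0 : ℝ) / (Fintype.card K : ℝ) ^ M.natDegree) := by ring
    _ = (((D : ℝ) + 1) / 4) * ∏ P ∈ S, (1 - wt K P.natDegree) := by rw [e6]
    _ ≤ ((∏ P ∈ S, (1 + wt K P.natDegree)) * R) * ∏ P ∈ S, (1 - wt K P.natDegree) :=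
        mul_le_mul_of_nonneg_right e8 hPhi0
    _ = ((∏ P ∈ S, (1 - wt K P.natDegree)) * (∏ P ∈ S, (1 + wt K P.natDegree))) * R := by ring
    _ ≤ 1 * R := mul_le_mul_of_nonneg_right e7 hR0
    _ = R := one_mul R

end Pool.Agent.H706.AR
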